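import Pool.Agent.N378.KH.Stm2

/-! KH/CUR: transfer from the joint laws to the volume in all coordinates (helper555). -/

set_option autoImplicit false

open MeasureTheory Finset
open scoped ENNReal

namespace Pool.Agent.N555.KH

open Pool.Agent.N378.KH

variable {n m : ℕ}

/-- the coordinates of one point -/
def blockE (i : Fin n) : Fin (m + 1) ≃ ↥(({i} : Finset (Fin n)) ×ˢ (univ : Finset (Fin (m + 1)))) where
  toFun l := ⟨(i, l), by simp⟩
  invFun p := p.1.2
  left_inv _ := rfl
  right_inv := by
    rintro ⟨⟨a, b⟩, h⟩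
    have ha : i = a := by simpa using h
    subst ha
    rfl

theorem block (i : Fin n) (G : (Fin n × Fin (m + 1) → ℝ) → ℝ≥0∞) (x : Fin n → Fin (m + 1) → ℝ) :
    (∫⋯∫⁻_(({i} : Finset (Fin n)) ×ˢ (univ : Finset (Fin (m + 1)))), G ∂fun _ => volume) (fl x) =
      ∫⁻ y : Fin (m + 1) → ℝ, G (fl (Function.update x i y)) := by
  unfold lmarginal
  refine Eq.trans ((measurePreserving_piCongrLeft
    (fun _ : ↥(({i} : Finset (Fin n)) ×ˢ (univ : Finset (Fin (m + 1)))) => (volume : Measure ℝ))
    (blockE i)).lintegral_map_equiv _) ?_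
  refine lintegral_congr fun y => ?_
  congr 1
  funext e
  obtain ⟨a, b⟩ := e
  by_cases ha : a = i
  · subst ha
    have hmem : (a, b) ∈ (({a} : Finset (Fin n)) ×ˢ (univ : Finset (Fin (m + 1)))) := by simp
    rw [Function.updateFinset, dif_pos hmem]
    simp only [fl, Function.update_self]
    exact Equiv.piCongrLeft_apply_apply (fun _ => ℝ) (blockE a) y b
  · have hmem : (a, b) ∉ (({i} : Finset (Fin n)) ×ˢ (univ : Finset (Fin (m + 1)))) := by
      rw [Finset.mem_product, Finset.mem_singleton]
      exact fun h => ha h.1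
    rw [Function.updateFinset, dif_neg hmem]
    simp only [fl, Function.update_of_ne ha]

theorem measurable_fl : Measurable (fl : (Fin n → Fin (m + 1) → ℝ) → Fin n × Fin (m + 1) → ℝ) := by
  refine measurable_pi_lambda _ fun e => ?_
  exact (measurable_pi_apply e.2).comp (measurable_pi_apply e.1)

theorem t_CUR : S_CUR := by
  intro n m D μ hD hμ Q f hf
  have : ∀ i, IsProbabilityMeasure (μ i) := hμ.1
  induction Q using Finset.induction with
  | empty =>
    intro x
    simp
  | insert i Q hi ih =>
    intro x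
    set G : (Fin n × Fin (m + 1) → ℝ) → ℝ≥0∞ := ∫⋯∫⁻_(Q ×ˢ Finset.univ), f ∂fun _ => volume with hG
    have hGm : Measurable G := hf.lmarginal _
    have hfm : Measurable fun x : Fin n → Fin (m + 1) → ℝ => f (fl x) := hf.comp measurable_fl
    have hprod : insert i Q ×ˢ (Finset.univ : Finset (Fin (m + 1))) =
        ({i} ×ˢ Finset.univ) ∪ (Q ×ˢ Finset.univ) := by
      rw [Finset.insert_eq, Finset.union_product]
    have hdis : Disjoint (({i} : Finset (Fin n)) ×ˢ (Finset.univ : Finset (Fin (m + 1))))
        (Q ×ˢ Finset.univ) := by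
      rw [Finset.disjoint_left]
      rintro ⟨a, b⟩ h1 h2
      have ha : i = a := by simpa using h1
      subst ha
      exact hi (Finset.mem_product.1 h2).1
    have hR : (∫⋯∫⁻_(insert i Q ×ˢ Finset.univ), f ∂fun _ => volume) (fl x) =
        ∫⁻ y : Fin (m + 1) → ℝ, G (fl (Function.update x i y)) := by
      rw [hprod, lmarginal_union _ f hf hdis, block]
    rw [lmarginal_insert _ hfm hi, hR, Finset.card_insert_of_notMem hi]
    calc ∫⁻ y, (∫⋯∫⁻_Q, (fun x => f (fl x)) ∂μ) (Function.update x i y) ∂μ i
        ≤ ∫⁻ y, ENNReal.ofReal D ^ Q.card * G (fl (Function.update x i y)) ∂μ i :=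
          lintegral_mono fun y => ih _
      _ ≤ ∫⁻ y, ENNReal.ofReal D ^ Q.card * G (fl (Function.update x i y))
            ∂(ENNReal.ofReal D • volume.restrict (Set.Icc (-1 : Fin (m + 1) → ℝ) 1)) :=
          lintegral_mono' (hμ.2 i) le_rfl
      _ = ENNReal.ofReal D * ∫⁻ y, ENNReal.ofReal D ^ Q.card * G (fl (Function.update x i y))
            ∂(volume.restrict (Set.Icc (-1 : Fin (m + 1) → ℝ) 1)) := by
          rw [lintegral_smul_measure, smul_eq_mul]
      _ ≤ ENNReal.ofReal D * ∫⁻ y, ENNReal.ofReal D ^ Q.card * G (fl (Function.update x i y)) := by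
          gcongr
          exact Measure.restrict_le_self
      _ = ENNReal.ofReal D ^ (Q.card + 1) * ∫⁻ y, G (fl (Function.update x i y)) := by
          have hm : Measurable fun y => G (fl (Function.update x i y)) :=
            hGm.comp (measurable_fl.comp (measurable_update x))
          rw [lintegral_const_mul _ hm, pow_succ]
          ring

end Pool.Agent.N555.KH
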